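import Pool.Agent.TH905.VF.Core

set_option autoImplicit false

/-!
Radicals of integers and discriminants of the fields which contain roots of their products.
-/

namespace Pool.Agent.U292.VC

open NumberField IsDedekindDomain Module
open Pool.Agent.H691R3 (fv fv_na fv_support_finite log_fv Nv log_Nv_pos)
open Pool.Agent.TH905.VF (fv_lt_iff rel product_formula)
open scoped Classical

/-- The ramification index over the `j`-th branch divisor of the cover
`y_i ^ E_i = c_i ∏_j F_j ^ a_ij`: the least common multiple of the `E_i / gcd (E_i, a_ij)`. -/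
def ram {s t : ℕ} (E : Fin t → ℕ) (a : Fin t → Fin s → ℕ) (j : Fin s) : ℕ :=
  Finset.univ.lcm fun i => E i / Nat.gcd (E i) (a i j)

/-- The toric criterion for canonical singularities of the normal cover
`y_i ^ E_i = c_i ∏_j F_j ^ a_ij` above a divisor with normal crossings: all lattice points
`u ≠ 0` of the cone have `∑_j u_j / e_j ≥ 1`. -/
def Canonical {s t : ℕ} (E : Fin t → ℕ) (a : Fin t → Fin s → ℕ) : Prop :=
  ∀ u : Fin s → ℕ, (∃ j, u j ≠ 0) → (∀ i, E i ∣ ∑ j, a i j * u j) →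
    1 ≤ ∑ j, (u j : ℝ) / ram E a j

/-- the fibre products of cyclic covers `y_j ^ m_j = c_j F_j` -/
theorem ram_fibre {s : ℕ} (m : Fin s → ℕ) (hm : ∀ i, 1 ≤ m i) (j : Fin s) :
    ram m (fun i j => if i = j then 1 else 0) j = m j := by
  unfold ram
  apply Nat.dvd_antisymm
  · refine Finset.lcm_dvd fun i _ => ?_
    by_cases h : i = j
    · subst h
      simp
    · show m i / Nat.gcd (m i) (if i = j then 1 else 0) ∣ m j
      rw [if_neg h, Nat.gcd_zero_right, Nat.div_self (hm i)]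
      exact one_dvd _
  · have := Finset.dvd_lcm (f := fun i => m i / Nat.gcd (m i) (if i = j then 1 else 0))
      (Finset.mem_univ j)
    simpa using this

theorem canonical_fibre {s : ℕ} (m : Fin s → ℕ) (hm : ∀ i, 1 ≤ m i) :
    Canonical m (fun i j => if i = j then 1 else 0) := by
  rintro u ⟨j, hj⟩ hdvd
  have h1 : m j ∣ u j := by
    have := hdvd j
    simpa using this
  have h2 : m j ≤ u j := Nat.le_of_dvd (Nat.pos_of_ne_zero hj) h1
  have h3 : (1 : ℝ) ≤ (u j : ℝ) / ram m (fun i j => if i = j then 1 else 0) j := by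
    rw [ram_fibre m hm, le_div_iff₀ (by exact_mod_cast hm j), one_mul]
    exact_mod_cast h2
  exact h3.trans (Finset.single_le_sum
    (f := fun j => (u j : ℝ) / ram m (fun i j => if i = j then 1 else 0) j)
    (fun i _ => by positivity) (Finset.mem_univ j))

/-- all covers of exponent two -/
theorem canonical_two {s t : ℕ} (a : Fin t → Fin s → ℕ) : Canonical (fun _ => 2) a := by
  rintro u ⟨j, hj⟩ hdvd
  have hr : ∀ j, ram (fun _ : Fin t => 2) a j ∣ 2 := fun j =>
    Finset.lcm_dvd fun i _ => Nat.div_dvd_of_dvd (Nat.gcd_dvd_left _ _)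
  have hr2 : ∀ j, 1 ≤ ram (fun _ : Fin t => 2) a j ∧ ram (fun _ : Fin t => 2) a j ≤ 2 :=
    fun j => ⟨Nat.pos_of_dvd_of_pos (hr j) (by norm_num), Nat.le_of_dvd (by norm_num) (hr j)⟩
  have hterm : ∀ j, 0 ≤ (u j : ℝ) / ram (fun _ : Fin t => 2) a j := fun j => by positivity
  have hhalf : ∀ j, (u j : ℝ) / 2 ≤ (u j : ℝ) / ram (fun _ : Fin t => 2) a j := by
    intro j
    refine div_le_div_of_nonneg_left (Nat.cast_nonneg _) ?_ ?_
    · exact_mod_cast (hr2 j).1
    · exact_mod_cast (hr2 j).2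
  by_cases h2 : 2 ≤ ∑ j, u j
  · have h3 : (2 : ℝ) ≤ ∑ j, (u j : ℝ) := by exact_mod_cast h2
    calc (1 : ℝ) ≤ ∑ j, (u j : ℝ) / 2 := by rw [← Finset.sum_div]; linarith
      _ ≤ _ := Finset.sum_le_sum fun j _ => hhalf j
  · have h3 : ∀ j', j' ≠ j → u j' = 0 := by
      intro j' hj'
      by_contra hc
      have h4 : u j + u j' ≤ ∑ j, u j := by
        rw [← Finset.sum_pair (Ne.symm hj')]
        exact Finset.sum_le_sum_of_subset (Finset.subset_univ _)
      omega
    have h4 : u j ≤ ∑ j, u j :=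
      Finset.single_le_sum (f := u) (fun _ _ => Nat.zero_le _) (Finset.mem_univ j)
    have huj : u j = 1 := by omega
    have h5 : ∀ i, 2 ∣ a i j := by
      intro i
      have := hdvd i
      rw [Finset.sum_eq_single j (fun j' _ hj' => by rw [h3 j' hj', mul_zero])
        (fun h => absurd (Finset.mem_univ j) h), huj, mul_one] at this
      exact this
    have h6 : ram (fun _ : Fin t => 2) a j = 1 := by
      have : ram (fun _ : Fin t => 2) a j ∣ 1 := by
        refine Finset.lcm_dvd fun i _ => ?_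
        have h7 : Nat.gcd 2 (a i j) = 2 := Nat.gcd_eq_left (h5 i)
        rw [h7]
        norm_num
      exact Nat.dvd_one.1 this
    have h7 : (1 : ℝ) ≤ (u j : ℝ) / ram (fun _ : Fin t => 2) a j := by
      rw [h6, huj]
      norm_num
    exact h7.trans (Finset.single_le_sum
      (f := fun j => (u j : ℝ) / ram (fun _ : Fin t => 2) a j) (fun i _ => hterm i)
      (Finset.mem_univ j))

/-- the cyclic covers `y ^ e = c ∏ F_j ^ a_j` with `a_j` dividing `e` -/
theorem canonical_cyclic {s : ℕ} (e : ℕ) (he : 1 ≤ e) (a : Fin s → ℕ) (ha : ∀ j, a j ∣ e) :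
    Canonical (fun _ : Fin 1 => e) (fun _ => a) := by
  rintro u ⟨j, hj⟩ hdvd
  have ha1 : ∀ j, 1 ≤ a j := fun j => Nat.pos_of_dvd_of_pos (ha j) he
  have hr : ∀ j, ram (fun _ : Fin 1 => e) (fun _ => a) j = e / a j := by
    intro j
    unfold ram
    rw [Finset.univ_unique, Finset.lcm_singleton, Nat.gcd_eq_right (ha j)]
    simp
  have h1 := hdvd 0
  have h2 : 1 ≤ ∑ j, a j * u j := by
    have h3 : a j * u j ≤ ∑ j, a j * u j :=
      Finset.single_le_sum (f := fun j => a j * u j) (fun _ _ => Nat.zero_le _)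
        (Finset.mem_univ j)
    have h4 : 1 ≤ a j * u j := Nat.mul_pos (ha1 j) (Nat.pos_of_ne_zero hj)
    omega
  have h3 : e ≤ ∑ j, a j * u j := Nat.le_of_dvd h2 h1
  have he0 : (0 : ℝ) < e := by exact_mod_cast he
  have h4 : ∑ j, (u j : ℝ) / ram (fun _ : Fin 1 => e) (fun _ => a) j =
      (∑ j, (a j : ℝ) * u j) / e := by
    rw [Finset.sum_div]
    refine Finset.sum_congr rfl fun j _ => ?_
    have h5 : (a j : ℝ) ≠ 0 := by exact_mod_cast (Nat.pos_iff_ne_zero.1 (ha1 j))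
    rw [hr j, Nat.cast_div (ha j) h5]
    field_simp
  rw [h4, le_div_iff₀ he0, one_mul]
  exact_mod_cast h3

theorem ram_pos {s t : ℕ} {E : Fin t → ℕ} (a : Fin t → Fin s → ℕ) (hE : ∀ i, 1 ≤ E i)
    (j : Fin s) : 1 ≤ ram E a j := by
  unfold ram
  rw [Nat.one_le_iff_ne_zero, Ne, Finset.lcm_eq_zero_iff]
  rintro ⟨i, -, hi⟩
  have h1 : 0 < E i := hE i
  have h2 : 0 < E i / Nat.gcd (E i) (a i j) :=
    Nat.div_pos (Nat.le_of_dvd h1 (Nat.gcd_dvd_left _ _)) (Nat.gcd_pos_of_pos_left _ h1)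
  omega

/-- a prime of the integers of `ℚ` above a prime number -/
theorem exists_prime (p : ℕ) (hp : p.Prime) : ∃ v : HeightOneSpectrum (𝓞 ℚ),
    (p : 𝓞 ℚ) ∈ v.asIdeal := by
  have h1 : ¬ IsUnit ((p : ℕ) : 𝓞 ℚ) := by
    intro h
    have h2 := h.map Rat.ringOfIntegersEquiv.toRingHom
    have h3 : IsUnit ((p : ℕ) : ℤ) := by simpa using h2
    have h4 := Int.isUnit_iff.1 h3
    have := hp.two_le
    rcases h4 with h4 | h4 <;> omega
  have h2 : Ideal.span {((p : ℕ) : 𝓞 ℚ)} ≠ ⊤ := fun h => h1 (Ideal.span_singleton_eq_top.1 h)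
  obtain ⟨M, hM, hle⟩ := Ideal.exists_le_maximal _ h2
  have h3 : ((p : ℕ) : 𝓞 ℚ) ∈ M := hle (Ideal.mem_span_singleton_self _)
  refine ⟨⟨M, hM.isPrime, ?_⟩, h3⟩
  rintro rfl
  have h4 : ((p : ℕ) : 𝓞 ℚ) = 0 := by simpa using h3
  exact hp.ne_zero (by exact_mod_cast h4)

/-- two different prime numbers do not lie in one prime -/
theorem eq_of_mem {R : Type*} [CommRing R] {I : Ideal R} (hI : I ≠ ⊤) {p q : ℕ}
    (hp : p.Prime) (hq : q.Prime) (h1 : (p : R) ∈ I) (h2 : (q : R) ∈ I) : p = q := by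
  by_contra hne
  have h3 := (Nat.coprime_primes hp hq).2 hne
  have h4 : (1 : R) ∈ I := by
    have h5 := Nat.gcd_eq_gcd_ab p q
    rw [h3] at h5
    have h6 : (1 : R) = (p : R) * ((Nat.gcdA p q : ℤ) : R) + (q : R) * ((Nat.gcdB p q : ℤ) : R) := by
      have := congrArg (Int.cast : ℤ → R) h5
      push_cast at this
      exact this
    rw [h6]
    exact I.add_mem (I.mul_mem_right _ h1) (I.mul_mem_right _ h2)
  exact hI ((Ideal.eq_top_iff_one _).2 h4)

theorem le_absNorm {v : HeightOneSpectrum (𝓞 ℚ)} {p : ℕ} (hp : p.Prime)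
    (h : (p : 𝓞 ℚ) ∈ v.asIdeal) : p ≤ Ideal.absNorm v.asIdeal := by
  have h0 : Ideal.absNorm v.asIdeal ≠ 0 := Ideal.absNorm_eq_zero_iff.not.2 v.ne_bot
  refine Nat.le_of_dvd (Nat.pos_of_ne_zero h0) ?_
  by_contra hc
  have h1 := (Nat.Prime.coprime_iff_not_dvd hp).2 hc
  have h2 : ((Ideal.absNorm v.asIdeal : ℕ) : 𝓞 ℚ) ∈ v.asIdeal := Ideal.absNorm_mem _
  have h5 := Nat.gcd_eq_gcd_ab p (Ideal.absNorm v.asIdeal)
  rw [h1] at h5
  have h4 : (1 : 𝓞 ℚ) ∈ v.asIdeal := by
    have h6 : (1 : 𝓞 ℚ) = (p : 𝓞 ℚ) * ((Nat.gcdA p (Ideal.absNorm v.asIdeal) : ℤ) : 𝓞 ℚ) +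
        ((Ideal.absNorm v.asIdeal : ℕ) : 𝓞 ℚ) *
          ((Nat.gcdB p (Ideal.absNorm v.asIdeal) : ℤ) : 𝓞 ℚ) := by
      have := congrArg (Int.cast : ℤ → 𝓞 ℚ) h5
      push_cast at this
      exact this
    rw [h6]
    exact Ideal.add_mem _ (Ideal.mul_mem_right _ _ h) (Ideal.mul_mem_right _ _ h2)
  exact v.isPrime.ne_top ((Ideal.eq_top_iff_one _).2 h4)

variable {L : Type} [Field L] [NumberField L]

/-- the discriminant and the primes above a finite set of prime numbers -/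
theorem disc_rel (R : Finset ℕ) (hR : ∀ p ∈ R, p.Prime) :
    ∃ W : Finset (HeightOneSpectrum (𝓞 L)), (∀ w ∈ W, ∃ p ∈ R, (p : 𝓞 L) ∈ w.asIdeal) ∧
      (finrank ℚ L : ℝ) * ∑ p ∈ R, Real.log p ≤
        Real.log |(discr L : ℝ)| + ∑ w ∈ W, Real.log (Ideal.absNorm w.asIdeal) := by
  have : Nonempty (HeightOneSpectrum (𝓞 ℚ)) := ⟨(exists_prime 2 Nat.prime_two).choose⟩
  choose! f hf using exists_prime
  have hinj : ∀ p ∈ R, ∀ q ∈ R, f p = f q → p = q := by
    intro p hp q hq h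
    refine eq_of_mem (f p).isPrime.ne_top (hR p hp) (hR q hq) (hf p (hR p hp)) ?_
    rw [h]
    exact hf q (hR q hq)
  obtain ⟨W, hW1, hW2⟩ := rel (k := ℚ) (L := L) (R.image f)
  refine ⟨W, ?_, ?_⟩
  · intro w hw
    obtain ⟨v, hv, hvw⟩ := hW1 w hw
    obtain ⟨p, hp, rfl⟩ := Finset.mem_image.1 hv
    refine ⟨p, hp, ?_⟩
    have h1 := hf p (hR p hp)
    rw [hvw.over] at h1
    have h2 : algebraMap (𝓞 ℚ) (𝓞 L) (p : 𝓞 ℚ) ∈ w.asIdeal := h1
    simpa using h2
  · rw [Finset.sum_image hinj, NumberField.discr_rat] at hW2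
    have h1 : ∑ p ∈ R, Real.log (p : ℝ) ≤ ∑ p ∈ R, Real.log (Ideal.absNorm (f p).asIdeal : ℝ) := by
      refine Finset.sum_le_sum fun p hp => Real.log_le_log ?_ ?_
      · exact_mod_cast (hR p hp).pos
      · exact_mod_cast le_absNorm (hR p hp) (hf p (hR p hp))
    have h2 := mul_le_mul_of_nonneg_left h1 (Nat.cast_nonneg (finrank ℚ L) : (0 : ℝ) ≤ _)
    have h3 : Real.log |((1 : ℤ) : ℝ)| = 0 := by norm_num
    rw [h3, zero_add] at hW2
    linarith

theorem fv_int_le (w : HeightOneSpectrum (𝓞 L)) (c : 𝓞 L) : fv w (c : L) ≤ 1 := by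
  by_contra h
  push Not at h
  rw [← map_one (fv w), fv_lt_iff, map_one] at h
  exact absurd (w.valuation_le_one c) (not_le.2 h)

theorem fv_lt_one (w : HeightOneSpectrum (𝓞 L)) (c : 𝓞 L) (h : c ∈ w.asIdeal) :
    fv w (c : L) < 1 := by
  rw [← map_one (fv w), fv_lt_iff, map_one]
  exact (w.valuation_lt_one_iff_mem c).mpr h

/-- the sum of the local contributions of a nonzero integer -/
theorem sum_int (v : ℤ) (hv : v ≠ 0) (W : Finset (HeightOneSpectrum (𝓞 L))) :
    ∑ w ∈ W, -Real.log (fv w (v : L)) ≤ finrank ℚ L * Real.log |(v : ℝ)| := by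
  have hL : (v : L) ≠ 0 := by exact_mod_cast hv
  set T := W ∪ (fv_support_finite hL).toFinset with hT
  have h1 := product_formula hL T fun w hw => by
    by_contra hc
    exact hw (Finset.mem_union_right _ ((Set.Finite.mem_toFinset _).2 hc))
  have h2 : ∑ w : InfinitePlace L, (w.mult : ℝ) * Real.log (w.1 (v : L)) =
      finrank ℚ L * Real.log |(v : ℝ)| := by
    have h3 : ∀ w : InfinitePlace L, Real.log (w.1 (v : L)) = Real.log |(v : ℝ)| := by
      intro w
      have h4 : w.1 (v : L) = |(v : ℝ)| := by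
        have h5 := InfinitePlace.norm_embedding_eq w (v : L)
        rw [map_intCast] at h5
        rw [← Complex.norm_intCast]
        exact h5.symm
      rw [h4]
    rw [Finset.sum_congr rfl fun w _ => by rw [h3 w], ← Finset.sum_mul]
    congr 1
    exact_mod_cast InfinitePlace.sum_mult_eq (K := L)
  have h3 : ∀ w : HeightOneSpectrum (𝓞 L), 0 ≤ -Real.log (fv w (v : L)) := by
    intro w
    have h4 : fv w (v : L) ≤ 1 := by
      have := fv_int_le w (v : 𝓞 L)
      simpa using this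
    have := Real.log_nonpos ((fv w).nonneg _) h4
    linarith
  have h4 : ∑ w ∈ W, -Real.log (fv w (v : L)) ≤ ∑ w ∈ T, -Real.log (fv w (v : L)) :=
    Finset.sum_le_sum_of_subset_of_nonneg Finset.subset_union_left fun w _ _ => h3 w
  simp only [Finset.sum_neg_distrib] at h4 ⊢
  linarith

/-- at a prime of `L` where the `c_i` are units, the orders of the branch divisors have sum at least
one with the weights `1 / e_j` -/
theorem local_ge {s t : ℕ} (v : Fin s → ℤ) (hv : ∀ j, v j ≠ 0) (E : Fin t → ℕ)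
    (a : Fin t → Fin s → ℕ) (hE : ∀ i, 1 ≤ E i) (hcan : Canonical E a) (c y : Fin t → L)
    (hy : ∀ i, y i ^ E i = c i * ∏ j, ((v j : ℤ) : L) ^ a i j)
    (w : HeightOneSpectrum (𝓞 L)) (hc : ∀ i, fv w (c i) = 1) (j₀ : Fin s)
    (hj₀ : ((v j₀ : ℤ) : 𝓞 L) ∈ w.asIdeal) :
    Real.log (Ideal.absNorm w.asIdeal) ≤
      ∑ j, 1 / (ram E a j : ℝ) * -Real.log (fv w ((v j : ℤ) : L)) := by
  have hN : 0 < Real.log (Nv w) := log_Nv_pos w
  have hNe : Real.log (Ideal.absNorm w.asIdeal : ℝ) = Real.log (Nv w) := rfl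
  have hvL : ∀ j, ((v j : ℤ) : L) ≠ 0 := fun j => by exact_mod_cast hv j
  choose f hf using fun j => log_fv w (hvL j)
  have hf0 : ∀ j, f j ≤ 0 := by
    intro j
    have h1 : fv w ((v j : ℤ) : L) ≤ 1 := by
      have := fv_int_le w ((v j : ℤ) : 𝓞 L)
      simpa using this
    have h2 := Real.log_nonpos ((fv w).nonneg _) h1
    rw [hf j] at h2
    have h3 : (f j : ℝ) ≤ 0 := nonpos_of_mul_nonpos_left h2 hN
    exact_mod_cast h3
  set u : Fin s → ℕ := fun j => (-f j).toNat with hu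
  have huz : ∀ j, ((u j : ℕ) : ℤ) = -f j := fun j => Int.toNat_of_nonneg (by have := hf0 j; omega)
  have hur : ∀ j, (u j : ℝ) = -(f j : ℝ) := fun j => by
    have := huz j
    exact_mod_cast this
  have hu0 : ∃ j, u j ≠ 0 := by
    refine ⟨j₀, fun h => ?_⟩
    have h1 : fv w ((v j₀ : ℤ) : L) < 1 := by
      have := fv_lt_one w ((v j₀ : ℤ) : 𝓞 L) hj₀
      simpa using this
    have h2 : Real.log (fv w ((v j₀ : ℤ) : L)) < 0 :=
      Real.log_neg ((fv w).pos (hvL j₀)) h1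
    rw [hf j₀] at h2
    have h3 : (f j₀ : ℝ) = 0 := by
      have := hur j₀
      rw [h, Nat.cast_zero] at this
      linarith
    rw [h3, zero_mul] at h2
    exact lt_irrefl _ h2
  have hdvd : ∀ i, E i ∣ ∑ j, a i j * u j := by
    intro i
    have hci : c i ≠ 0 := by
      intro h0
      have := hc i
      rw [h0, map_zero] at this
      exact zero_ne_one this
    have hprod : (∏ j, ((v j : ℤ) : L) ^ a i j) ≠ 0 :=
      Finset.prod_ne_zero_iff.2 fun j _ => pow_ne_zero _ (hvL j)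
    have hyi : y i ≠ 0 := by
      intro h0
      have h1 := hy i
      rw [h0, zero_pow (by have := hE i; omega)] at h1
      exact mul_ne_zero hci hprod h1.symm
    obtain ⟨η, hη⟩ := log_fv w hyi
    have h1 := congrArg (fun z => Real.log (fv w z)) (hy i)
    simp only [map_pow, map_mul, hc i, one_mul] at h1
    rw [Real.log_pow, map_prod, Real.log_prod (fun j _ => by
      rw [map_pow]; exact pow_ne_zero _ ((fv w).pos (hvL j)).ne')] at h1
    have h2 : ∀ j, Real.log (fv w (((v j : ℤ) : L) ^ a i j)) =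
        ((a i j * f j : ℤ) : ℝ) * Real.log (Nv w) := by
      intro j
      rw [map_pow, Real.log_pow, hf j]
      push_cast
      ring
    rw [Finset.sum_congr rfl fun j _ => h2 j, ← Finset.sum_mul, hη, ← mul_assoc] at h1
    have h3 : ((E i * η : ℤ) : ℝ) = ((∑ j, a i j * f j : ℤ) : ℝ) := by
      have h4 := mul_right_cancel₀ hN.ne' h1
      push_cast at h4 ⊢
      exact h4
    have h5 : (E i * η : ℤ) = ∑ j, a i j * f j := by exact_mod_cast h3
    have h6 : ((E i : ℕ) : ℤ) ∣ ((∑ j, a i j * u j : ℕ) : ℤ) := by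
      refine ⟨-η, ?_⟩
      push_cast
      rw [mul_neg, h5, ← Finset.sum_neg_distrib]
      refine Finset.sum_congr rfl fun j _ => ?_
      rw [huz j]
      ring
    exact_mod_cast h6
  have h1 := hcan u hu0 hdvd
  have h2 : ∑ j, 1 / (ram E a j : ℝ) * -Real.log (fv w ((v j : ℤ) : L)) =
      (∑ j, (u j : ℝ) / ram E a j) * Real.log (Nv w) := by
    rw [Finset.sum_mul]
    refine Finset.sum_congr rfl fun j _ => ?_
    rw [hf j, hur j]
    ring
  rw [hNe, h2]
  nlinarith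

/-- **Radicals and discriminants of abelian covers.** -/
theorem disc_cover {s t : ℕ} (v : Fin s → ℤ) (hv : ∀ j, v j ≠ 0) (E : Fin t → ℕ)
    (a : Fin t → Fin s → ℕ) (hE : ∀ i, 1 ≤ E i) (hcan : Canonical E a) (S : Finset ℕ)
    (hS : ∀ p ∈ S, p.Prime) (c y : Fin t → L)
    (hc : ∀ w : HeightOneSpectrum (𝓞 L), (∀ p ∈ S, (p : 𝓞 L) ∉ w.asIdeal) →
      ∀ i, FinitePlace.mk w (c i) = 1)
    (hy : ∀ i, y i ^ E i = c i * ∏ j, ((v j : ℤ) : L) ^ a i j) :
    ∑ p ∈ (∏ j, v j).natAbs.primeFactors, Real.log p ≤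
      Real.log |(discr L : ℝ)| / finrank ℚ L + ∑ p ∈ S, Real.log p +
        ∑ j, 1 / (ram E a j : ℝ) * Real.log |(v j : ℝ)| := by
  have hd : (0 : ℝ) < finrank ℚ L := by exact_mod_cast finrank_pos
  set Q := (∏ j, v j).natAbs.primeFactors with hQ
  have hQp : ∀ p ∈ Q, p.Prime := fun p hp => Nat.prime_of_mem_primeFactors hp
  obtain ⟨W, hW1, hW2⟩ := disc_rel (L := L) (Q \ S) fun p hp => hQp p (Finset.mem_sdiff.1 hp).1
  have h1 : ∑ p ∈ Q, Real.log (p : ℝ) ≤ ∑ p ∈ Q \ S, Real.log (p : ℝ) + ∑ p ∈ S, Real.log (p : ℝ) := by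
    have h2 : Q ⊆ (Q \ S) ∪ S := by
      intro p hp
      by_cases h : p ∈ S
      · exact Finset.mem_union_right _ h
      · exact Finset.mem_union_left _ (Finset.mem_sdiff.2 ⟨hp, h⟩)
    rw [← Finset.sum_union Finset.sdiff_disjoint]
    refine Finset.sum_le_sum_of_subset_of_nonneg h2 fun p hp _ => Real.log_natCast_nonneg _
  have h2 : ∑ w ∈ W, Real.log (Ideal.absNorm w.asIdeal) ≤
      ∑ w ∈ W, ∑ j, 1 / (ram E a j : ℝ) * -Real.log (fv w ((v j : ℤ) : L)) := by
    refine Finset.sum_le_sum fun w hw => ?_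
    obtain ⟨p, hp, hpw⟩ := hW1 w hw
    obtain ⟨hpQ, hpS⟩ := Finset.mem_sdiff.1 hp
    have hpp := hQp p hpQ
    have hcw : ∀ i, fv w (c i) = 1 := by
      refine hc w fun q hq hqw => ?_
      have := eq_of_mem w.isPrime.ne_top (hS q hq) hpp hqw hpw
      exact hpS (this ▸ hq)
    have hdv : (p : ℤ) ∣ ∏ j, v j := Int.natCast_dvd.2 (Nat.dvd_of_mem_primeFactors hpQ)
    obtain ⟨j₀, -, hj₀⟩ := (Nat.prime_iff_prime_int.1 hpp).exists_mem_finset_dvd hdv
    refine local_ge v hv E a hE hcan c y hy w hcw j₀ ?_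
    obtain ⟨z, hz⟩ := hj₀
    rw [hz]
    push_cast
    exact Ideal.mul_mem_right _ _ hpw
  have h3 : ∑ w ∈ W, ∑ j, 1 / (ram E a j : ℝ) * -Real.log (fv w ((v j : ℤ) : L)) ≤
      finrank ℚ L * ∑ j, 1 / (ram E a j : ℝ) * Real.log |(v j : ℝ)| := by
    rw [Finset.sum_comm, Finset.mul_sum]
    refine Finset.sum_le_sum fun j _ => ?_
    rw [← Finset.mul_sum]
    have h4 := sum_int (L := L) (v j) (hv j) W
    have h5 : (0 : ℝ) ≤ 1 / (ram E a j : ℝ) := by positivity
    have h6 := mul_le_mul_of_nonneg_left h4 h5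
    linarith
  have h4 : (finrank ℚ L : ℝ) * ∑ p ∈ Q \ S, Real.log (p : ℝ) ≤
      Real.log |(discr L : ℝ)| +
        finrank ℚ L * ∑ j, 1 / (ram E a j : ℝ) * Real.log |(v j : ℝ)| := by linarith
  have h5 : ∑ p ∈ Q \ S, Real.log (p : ℝ) ≤ Real.log |(discr L : ℝ)| / finrank ℚ L +
      ∑ j, 1 / (ram E a j : ℝ) * Real.log |(v j : ℝ)| := by
    have h6 : Real.log |(discr L : ℝ)| / finrank ℚ L +
        ∑ j, 1 / (ram E a j : ℝ) * Real.log |(v j : ℝ)| =
        (Real.log |(discr L : ℝ)| +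
          finrank ℚ L * ∑ j, 1 / (ram E a j : ℝ) * Real.log |(v j : ℝ)|) / finrank ℚ L := by
      field_simp
    rw [h6, le_div_iff₀ hd]
    linarith
  linarith

end Pool.Agent.U292.VC
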